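import Pool.Agent.Helper50.BL.Stmts
import Pool.Agent.Helper50.BL.Base

/-! # The local lemma -/

namespace Pool.Agent.Helper50.BL

open Finset
open scoped Classical

section lll

variable {V α : Type} [Fintype V] [DecidableEq V] [Fintype α] {mu : V → α → ℝ}

/-- exchange of the coordinates in `D` of two points -/
def lll_swap (V α : Type) [DecidableEq V] (D : Finset V) :
    ((V → α) × (V → α)) ≃ ((V → α) × (V → α)) where
  toFun p := (D.piecewise p.1 p.2, D.piecewise p.2 p.1)
  invFun p := (D.piecewise p.1 p.2, D.piecewise p.2 p.1)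
  left_inv p := by
    ext v <;> by_cases hv : v ∈ D <;> simp [hv]
  right_inv p := by
    ext v <;> by_cases hv : v ∈ D <;> simp [hv]

/-- independence -/
theorem lll_ind (h : IsW mu) {D D' : Finset V} (hD : Disjoint D D') {f g : (V → α) → ℝ}
    (hf : ∀ w w' : V → α, (∀ v ∈ D, w v = w' v) → f w = f w')
    (hg : ∀ w w' : V → α, (∀ v ∈ D', w v = w' v) → g w = g w') :
    Ex mu (fun w => f w * g w) = Ex mu f * Ex mu g := by
  have h0 : ∑ w : V → α, (∏ v, mu v (w v)) = 1 := by
    have := Ex_one h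
    simpa [Ex] using this
  have h1 : Ex mu f * Ex mu g = ∑ p : (V → α) × (V → α),
      ((∏ v, mu v (p.1 v)) * f p.1) * ((∏ v, mu v (p.2 v)) * g p.2) := by
    unfold Ex
    rw [Finset.sum_mul_sum, ← Finset.sum_product']; rfl
  have h2 : ∑ p : (V → α) × (V → α),
      ((∏ v, mu v (p.1 v)) * f p.1) * ((∏ v, mu v (p.2 v)) * g p.2)
      = ∑ p : (V → α) × (V → α),
      ((∏ v, mu v (p.1 v)) * (f p.1 * g p.1)) * (∏ v, mu v (p.2 v)) := by
    rw [← Equiv.sum_comp (lll_swap V α D) (fun p : (V → α) × (V → α) =>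
      ((∏ v, mu v (p.1 v)) * f p.1) * ((∏ v, mu v (p.2 v)) * g p.2))]
    refine Finset.sum_congr rfl fun p _ => ?_
    have e1 : f (lll_swap V α D p).1 = f p.1 := by
      apply hf; intro v hv; simp [lll_swap, hv]
    have e2 : g (lll_swap V α D p).2 = g p.1 := by
      apply hg; intro v hv
      have : v ∉ D := fun h => (Finset.disjoint_left.1 hD h) hv
      simp [lll_swap, this]
    have e3 : (∏ v, mu v ((lll_swap V α D p).1 v)) * (∏ v, mu v ((lll_swap V α D p).2 v))
        = (∏ v, mu v (p.1 v)) * (∏ v, mu v (p.2 v)) := by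
      rw [← prod_mul_distrib, ← prod_mul_distrib]
      refine prod_congr rfl fun v _ => ?_
      by_cases hv : v ∈ D
      · simp [lll_swap, hv]
      · simp only [lll_swap, Equiv.coe_fn_mk, hv, not_false_eq_true, piecewise_eq_of_notMem]
        ring
    rw [e1, e2]
    calc (∏ v, mu v ((lll_swap V α D p).1 v)) * f p.1
          * ((∏ v, mu v ((lll_swap V α D p).2 v)) * g p.1)
        = ((∏ v, mu v ((lll_swap V α D p).1 v)) * (∏ v, mu v ((lll_swap V α D p).2 v)))
          * (f p.1 * g p.1) := by ring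
      _ = _ := by rw [e3]; ring
  rw [h1, h2, Fintype.sum_prod_type]
  simp only
  unfold Ex
  refine Finset.sum_congr rfl fun w _ => ?_
  rw [← mul_sum, h0, mul_one]

theorem lll_ind_pr (h : IsW mu) {D D' : Finset V} (hD : Disjoint D D') {A B : (V → α) → Prop}
    (hA : Dep D A) (hB : Dep D' B) :
    Pr mu (fun w => A w ∧ B w) = Pr mu A * Pr mu B := by
  unfold Pr
  rw [← lll_ind h hD (f := fun w => if A w then 1 else 0) (g := fun w => if B w then 1 else 0)]
  · congr 1
    funext w
    by_cases h1 : A w <;> by_cases h2 : B w <;> simp [h1, h2]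
  · intro w w' hw
    have := hA w w' hw
    simp only [this]
  · intro w w' hw
    have := hB w w' hw
    simp only [this]

/-- none of the events in `T` -/
def lll_good {I : Type} (Bad : I → (V → α) → Prop) (T : Finset I) (w : V → α) : Prop :=
  ∀ j ∈ T, ¬ Bad j w

omit [Fintype V] [Fintype α] in
theorem lll_good_dep {I : Type} {Bad : I → (V → α) → Prop} {X : I → Finset V}
    (hdep : ∀ i, Dep (X i) (Bad i)) (T : Finset I) :
    Dep (T.biUnion X) (lll_good Bad T) := by
  intro w w' hw
  have h1 : ∀ j ∈ T, (Bad j w ↔ Bad j w') := fun j hj =>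
    hdep j w w' fun v hv => hw v (mem_biUnion.2 ⟨j, hj, hv⟩)
  exact ⟨fun h j hj hb => h j hj ((h1 j hj).2 hb), fun h j hj hb => h j hj ((h1 j hj).1 hb)⟩

/-- adding one event -/
theorem lll_step {I : Type} (Bad : I → (V → α) → Prop) (T : Finset I) (a : I) :
    Pr mu (lll_good Bad (insert a T))
      = Pr mu (lll_good Bad T) - Pr mu (fun w => Bad a w ∧ lll_good Bad T w) := by
  unfold Pr
  rw [← Ex_sub]
  congr 1
  funext w
  have h1 : lll_good Bad (insert a T) w ↔ ¬ Bad a w ∧ lll_good Bad T w := by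
    unfold lll_good
    constructor
    · intro h
      exact ⟨h a (mem_insert_self a T), fun j hj => h j (mem_insert_of_mem hj)⟩
    · rintro ⟨h1, h2⟩ j hj
      rcases mem_insert.1 hj with rfl | h
      · exact h1
      · exact h2 j h
  by_cases h2 : Bad a w <;> by_cases h3 : lll_good Bad T w <;> simp [h1, h2, h3]

theorem lll_exp {x : ℝ} (h0 : 0 ≤ x) (h1 : x ≤ 1 / 2) : Real.exp (-(2 * x)) ≤ 1 - x := by
  have h2 : 1 + 2 * x ≤ Real.exp (2 * x) := by
    have := Real.add_one_le_exp (2 * x)
    linarith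
  have h3 : 1 ≤ (1 - x) * (1 + 2 * x) := by nlinarith
  have h4 : 1 ≤ (1 - x) * Real.exp (2 * x) :=
    h3.trans (mul_le_mul_of_nonneg_left h2 (by linarith))
  rw [Real.exp_neg]
  rw [inv_le_iff_one_le_mul₀ (Real.exp_pos _)]
  exact h4

theorem lll_key (h : IsW mu) {I : Type} {X : I → Finset V} {Bad : I → (V → α) → Prop}
    {x : I → ℝ} {γ : ℝ} (hdep : ∀ i, Dep (X i) (Bad i)) (hx0 : ∀ i, 0 ≤ x i)
    (hx1 : ∀ i, x i ≤ 1 / 2)
    (hp : ∀ i, Pr mu (Bad i) ≤ x i * Real.exp (-(γ * (#(X i) : ℝ))))
    (hs : ∀ v, ∀ F : Finset I, ∑ i ∈ F.filter (fun i => v ∈ X i), x i ≤ γ / 2) :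
    ∀ (T : Finset I) (i : I), Pr mu (fun w => Bad i w ∧ lll_good Bad T w)
      ≤ x i * Pr mu (lll_good Bad T) := by
  intro T
  induction' hn : #T using Nat.strong_induction_on with n ih generalizing T
  intro i
  set T1 := T.filter (fun j => ¬ Disjoint (X j) (X i)) with hT1
  set T2 := T.filter (fun j => Disjoint (X j) (X i)) with hT2
  have hT12 : T2 ∪ T1 = T := by
    rw [hT1, hT2]
    exact filter_union_filter_not_eq _ T
  -- the events of T2 are independent of Bad i
  have h1 : Pr mu (fun w => Bad i w ∧ lll_good Bad T w)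
      ≤ x i * Real.exp (-(γ * (#(X i) : ℝ))) * Pr mu (lll_good Bad T2) := by
    have h2 : Pr mu (fun w => Bad i w ∧ lll_good Bad T w)
        ≤ Pr mu (fun w => Bad i w ∧ lll_good Bad T2 w) := by
      refine Pr_mono h fun w hw => ⟨hw.1, fun j hj => hw.2 j ?_⟩
      exact (mem_filter.1 hj).1
    refine h2.trans ?_
    have hdisj : Disjoint (X i) (T2.biUnion X) := by
      rw [Finset.disjoint_biUnion_right]
      intro j hj
      exact ((mem_filter.1 hj).2).symm
    rw [lll_ind_pr h hdisj (hdep i) (lll_good_dep hdep T2)]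
    exact mul_le_mul_of_nonneg_right (hp i) (Pr_nonneg h _)
  -- adding the events of T1
  have h3 : ∀ U : Finset I, U ⊆ T1 →
      Pr mu (lll_good Bad T2) * ∏ j ∈ U, (1 - x j) ≤ Pr mu (lll_good Bad (T2 ∪ U)) := by
    intro U
    induction' U using Finset.induction_on with a U haU ihU
    · intro _
      simp
    · intro hU
      have hUT : U ⊆ T1 := fun j hj => hU (mem_insert_of_mem hj)
      have haT : a ∈ T1 := hU (mem_insert_self a U)
      have haT2 : a ∉ T2 := by
        intro hc
        exact (mem_filter.1 haT).2 (mem_filter.1 hc).2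
      have hlt : #(T2 ∪ U) < n := by
        rw [← hn]
        apply card_lt_card
        refine ⟨?_, fun hc => ?_⟩
        · rw [← hT12]
          exact union_subset_union_right hUT
        · have : a ∈ T2 ∪ U := hc (mem_filter.1 haT).1
          rcases mem_union.1 this with h' | h'
          · exact haT2 h'
          · exact haU h'
      have h4 := ih _ hlt (T2 ∪ U) rfl a
      rw [prod_insert haU]
      have h5 : T2 ∪ insert a U = insert a (T2 ∪ U) := by
        rw [union_insert]
      rw [h5, lll_step]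
      have h6 := ihU hUT
      have h7 : (1 - x a) * (Pr mu (lll_good Bad T2) * ∏ j ∈ U, (1 - x j))
          ≤ (1 - x a) * Pr mu (lll_good Bad (T2 ∪ U)) :=
        mul_le_mul_of_nonneg_left h6 (by have := hx1 a; linarith)
      calc Pr mu (lll_good Bad T2) * ((1 - x a) * ∏ j ∈ U, (1 - x j))
          = (1 - x a) * (Pr mu (lll_good Bad T2) * ∏ j ∈ U, (1 - x j)) := by ring
        _ ≤ (1 - x a) * Pr mu (lll_good Bad (T2 ∪ U)) := h7
        _ ≤ _ := by linarith
  have h4 := h3 T1 (Subset.refl _)
  rw [hT12] at h4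
  have h5 : Real.exp (-(γ * (#(X i) : ℝ))) ≤ ∏ j ∈ T1, (1 - x j) := by
    have h6 : ∑ j ∈ T1, x j ≤ (#(X i) : ℝ) * (γ / 2) := by
      have h7 : ∑ j ∈ T1, x j ≤ ∑ v ∈ X i, ∑ j ∈ T.filter (fun j => v ∈ X j), x j := by
        have h8 : ∑ j ∈ T1, x j ≤ ∑ j ∈ T1, ∑ v ∈ X i, (if v ∈ X j then x j else 0) := by
          refine sum_le_sum fun j hj => ?_
          obtain ⟨v, hvj, hvi⟩ := Finset.not_disjoint_iff.1 (mem_filter.1 hj).2
          have h9 : (if v ∈ X j then x j else 0) ≤ ∑ v ∈ X i, (if v ∈ X j then x j else 0) :=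
            single_le_sum (f := fun v => if v ∈ X j then x j else 0)
              (fun v _ => by
                show 0 ≤ (if v ∈ X j then x j else 0)
                split_ifs
                · exact hx0 j
                · exact le_rfl) hvi
          rwa [if_pos hvj] at h9
        refine h8.trans ?_
        rw [sum_comm]
        refine sum_le_sum fun v _ => ?_
        rw [← sum_filter]
        refine sum_le_sum_of_subset_of_nonneg ?_ fun a _ _ => hx0 a
        intro a ha
        exact mem_filter.2 ⟨(mem_filter.1 (mem_filter.1 ha).1).1, (mem_filter.1 ha).2⟩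
      refine h7.trans ?_
      calc ∑ v ∈ X i, ∑ j ∈ T.filter (fun j => v ∈ X j), x j ≤ ∑ _v ∈ X i, γ / 2 :=
            sum_le_sum fun v _ => hs v T
        _ = (#(X i) : ℝ) * (γ / 2) := by rw [sum_const, nsmul_eq_mul]
    calc Real.exp (-(γ * (#(X i) : ℝ))) ≤ Real.exp (∑ j ∈ T1, -(2 * x j)) := by
          rw [Real.exp_le_exp, sum_neg_distrib, ← mul_sum]
          nlinarith
      _ = ∏ j ∈ T1, Real.exp (-(2 * x j)) := Real.exp_sum _ _
      _ ≤ ∏ j ∈ T1, (1 - x j) :=
          prod_le_prod (fun j _ => Real.exp_nonneg _) fun j _ => lll_exp (hx0 j) (hx1 j)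
  calc Pr mu (fun w => Bad i w ∧ lll_good Bad T w)
      ≤ x i * Real.exp (-(γ * (#(X i) : ℝ))) * Pr mu (lll_good Bad T2) := h1
    _ ≤ x i * (∏ j ∈ T1, (1 - x j)) * Pr mu (lll_good Bad T2) := by
        refine mul_le_mul_of_nonneg_right ?_ (Pr_nonneg h _)
        exact mul_le_mul_of_nonneg_left h5 (hx0 i)
    _ = x i * (Pr mu (lll_good Bad T2) * ∏ j ∈ T1, (1 - x j)) := by ring
    _ ≤ x i * Pr mu (lll_good Bad T) := mul_le_mul_of_nonneg_left h4 (hx0 i)

end lll

theorem st_LLL : ST_LLL := by
  intro V α _ _ _ mu h I X Bad x γ hdep hx0 hx1 _ hp hs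
  have hkey := lll_key h hdep hx0 hx1 hp hs
  have hpos : ∀ T : Finset I, 0 < Pr mu (lll_good Bad T) := by
    intro T
    induction' T using Finset.induction_on with a T haT ih
    · have : Pr mu (lll_good Bad (∅ : Finset I)) = 1 := by
        unfold Pr
        have h1 : (fun w : V → α => if lll_good Bad (∅ : Finset I) w then (1 : ℝ) else 0)
            = fun _ => 1 := by
          funext w
          have : lll_good Bad (∅ : Finset I) w := by
            intro j hj
            simp at hj
          rw [if_pos this]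
        rw [h1, Ex_one h]
      rw [this]
      norm_num
    · rw [lll_step]
      have h1 := hkey T a
      have h2 := hx1 a
      nlinarith
  by_contra hcon
  push Not at hcon
  choose i hi using hcon
  have h1 := hpos (univ.image i)
  have h2 : Pr mu (lll_good Bad (univ.image i)) = 0 := by
    refine Pr_false mu fun w hw => ?_
    exact hw (i w) (mem_image.2 ⟨w, mem_univ w, rfl⟩) (hi w)
  rw [h2] at h1
  exact lt_irrefl _ h1

end Pool.Agent.Helper50.BL
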