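import Pool.Agent.Helper50.BL.Stmts
import Pool.Agent.Helper50.BL.Base

/-! # Hoeffding's inequality -/

namespace Pool.Agent.Helper50.BL

open Finset
open scoped Classical

open MeasureTheory ProbabilityTheory in
/-- Hoeffding's lemma for a finite probability vector -/
theorem hoef_lemma {α : Type} [Fintype α] (p : α → ℝ) (hp : ∀ a, 0 ≤ p a) (hp1 : ∑ a, p a = 1)
    (f : α → ℝ) (lo c : ℝ) (hf : ∀ a, lo ≤ f a ∧ f a ≤ lo + c) (hm : ∑ a, p a * f a = 0) (L : ℝ) :
    ∑ a, p a * Real.exp (L * f a) ≤ Real.exp (L ^ 2 * c ^ 2 / 8) := by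
  let _ : MeasurableSpace α := ⊤
  set μ : Measure α := ∑ a, ENNReal.ofReal (p a) • Measure.dirac a with hμ
  have hpr : IsProbabilityMeasure μ := by
    constructor
    rw [hμ, Measure.finsetSum_apply]
    simp only [Measure.smul_apply, measure_univ, smul_eq_mul, mul_one]
    rw [← ENNReal.ofReal_sum_of_nonneg (fun a _ => hp a), hp1, ENNReal.ofReal_one]
  have hint : ∀ g : α → ℝ, ∫ a, g a ∂μ = ∑ a, p a * g a := by
    intro g
    rw [hμ, integral_finsetSum_measure]
    · refine sum_congr rfl fun a _ => ?_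
      rw [integral_smul_measure, integral_dirac, ENNReal.toReal_ofReal (hp a), smul_eq_mul]
    · intro a _
      exact (integrable_dirac (by simp)).smul_measure ENNReal.ofReal_ne_top
  have hmeas : Measurable f := by
    intro s _
    trivial
  have hb : ∀ᵐ a ∂μ, f a ∈ Set.Icc lo (lo + c) := Filter.Eventually.of_forall fun a => hf a
  have hm0 : ∫ a, f a ∂μ = 0 := by rw [hint, hm]
  have h := (hasSubgaussianMGF_of_mem_Icc_of_integral_eq_zero hmeas.aemeasurable hb hm0).mgf_le L
  rw [mgf, hint] at h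
  refine h.trans (Real.exp_le_exp.2 (le_of_eq ?_))
  simp only [NNReal.coe_pow, NNReal.coe_div, coe_nnnorm, Real.norm_eq_abs, NNReal.coe_ofNat,
    add_sub_cancel_left, div_pow, sq_abs]
  ring

theorem st_HOEF : ST_HOEF := by
  intro V α _ _ _ mu h f lo c s2 u hf hm hc hs2 hu
  set L := 4 * u / s2 with hL
  have hL0 : 0 ≤ L := by positivity
  -- exponential moment
  have h1 : Ex mu (fun w => Real.exp (L * ∑ v, f v (w v))) ≤ Real.exp (L ^ 2 * s2 / 8) := by
    have h2 : (fun w : V → α => Real.exp (L * ∑ v, f v (w v)))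
        = fun w => ∏ v, Real.exp (L * f v (w v)) := by
      funext w
      rw [mul_sum, Real.exp_sum]
    rw [h2, Ex_prod (fun v a => Real.exp (L * f v a))]
    calc ∏ v, ∑ a, mu v a * Real.exp (L * f v a) ≤ ∏ v, Real.exp (L ^ 2 * c v ^ 2 / 8) := by
          refine prod_le_prod (fun v _ => sum_nonneg fun a _ =>
            mul_nonneg (h.1 v a) (Real.exp_nonneg _)) fun v _ => ?_
          exact hoef_lemma (mu v) (h.1 v) (h.2 v) (f v) (lo v) (c v) (hf v) (hm v) L
      _ = Real.exp (∑ v, L ^ 2 * c v ^ 2 / 8) := (Real.exp_sum _ _).symm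
      _ ≤ Real.exp (L ^ 2 * s2 / 8) := by
          rw [Real.exp_le_exp, ← sum_div, ← mul_sum]
          have : L ^ 2 * ∑ v, c v ^ 2 ≤ L ^ 2 * s2 := mul_le_mul_of_nonneg_left hc (sq_nonneg L)
          linarith
  -- Markov
  have h3 : Pr mu (fun w => u ≤ ∑ v, f v (w v))
      ≤ Ex mu (fun w => Real.exp (-(L * u)) * Real.exp (L * ∑ v, f v (w v))) := by
    refine Ex_mono h fun w => ?_
    by_cases hw : u ≤ ∑ v, f v (w v)
    · simp only [hw, if_true]
      rw [← Real.exp_add]
      refine Real.one_le_exp ?_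
      have := mul_le_mul_of_nonneg_left hw hL0
      linarith
    · simp only [hw, if_false]
      positivity
  rw [Ex_mul_left] at h3
  refine h3.trans ?_
  calc Real.exp (-(L * u)) * Ex mu (fun w => Real.exp (L * ∑ v, f v (w v)))
      ≤ Real.exp (-(L * u)) * Real.exp (L ^ 2 * s2 / 8) :=
        mul_le_mul_of_nonneg_left h1 (Real.exp_nonneg _)
    _ = Real.exp (-(2 * u ^ 2 / s2)) := by
        rw [← Real.exp_add]
        congr 1
        rw [hL]
        field_simp
        ring

end Pool.Agent.Helper50.BL
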