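import Pool.Agent.Helper50.BL.Stmts
import Pool.Agent.Helper50.BL.Base

/-! # Connected components exist -/

namespace Pool.Agent.Helper50.BL

open Finset
open scoped Classical

theorem st_COMP : ST_COMP := by
  intro α R hs Q
  induction' hn : #Q using Nat.strong_induction_on with n ih generalizing Q
  by_cases hQ : Q = ∅
  · refine ⟨∅, ?_, ?_, ?_⟩
    · simp
    · intro p; simp [hQ]
    · simp
  by_cases hc : Conn R Q
  · refine ⟨{Q}, ?_, ?_, ?_⟩
    · intro A hA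
      rw [mem_singleton] at hA
      rw [hA]; exact hc
    · intro p; simp
    · intro A hA A' hA' hne
      rw [mem_singleton] at hA hA'
      exact absurd (hA.trans hA'.symm) hne
  have hsplit : ∃ A ⊆ Q, A.Nonempty ∧ A ≠ Q ∧ ∀ a ∈ A, ∀ b ∈ Q, b ∉ A → ¬ R a b := by
    by_contra hcon
    push Not at hcon
    apply hc
    refine ⟨nonempty_iff_ne_empty.2 hQ, fun A hA hAn hAQ => ?_⟩
    obtain ⟨a, ha, b, hb, hbA, hr⟩ := hcon A hA hAn hAQ
    exact ⟨a, ha, b, hb, hbA, hr⟩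
  obtain ⟨A, hAQ, hAn, hne, hno⟩ := hsplit
  have hss : A ⊂ Q := ssubset_of_subset_of_ne hAQ hne
  have h1 : #A < n := hn ▸ card_lt_card hss
  have h2 : #(Q \ A) < n := by
    rw [card_sdiff_of_subset hAQ, hn]
    have := hAn.card_pos
    have := hn ▸ card_le_card hAQ
    omega
  obtain ⟨C1, hC1⟩ := ih _ h1 A rfl
  obtain ⟨C2, hC2⟩ := ih _ h2 (Q \ A) rfl
  have hcross : ∀ B ∈ C1, ∀ B' ∈ C2, ∀ a ∈ B, ∀ b ∈ B', a ≠ b ∧ ¬ R a b ∧ ¬ R b a := by
    intro B hB B' hB' a ha b hb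
    have haA : a ∈ A := (hC1.2.1 a).2 ⟨B, hB, ha⟩
    have hbA := mem_sdiff.1 ((hC2.2.1 b).2 ⟨B', hB', hb⟩)
    refine ⟨fun h => hbA.2 (h ▸ haA), hno a haA b hbA.1 hbA.2, fun h => ?_⟩
    exact hno a haA b hbA.1 hbA.2 (hs _ _ h)
  refine ⟨C1 ∪ C2, ?_, ?_, ?_⟩
  · intro B hB
    rcases mem_union.1 hB with h | h
    · exact hC1.1 B h
    · exact hC2.1 B h
  · intro p
    constructor
    · intro hp
      by_cases hpA : p ∈ A
      · obtain ⟨B, hB, hpB⟩ := (hC1.2.1 p).1 hpA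
        exact ⟨B, mem_union_left _ hB, hpB⟩
      · obtain ⟨B, hB, hpB⟩ := (hC2.2.1 p).1 (mem_sdiff.2 ⟨hp, hpA⟩)
        exact ⟨B, mem_union_right _ hB, hpB⟩
    · rintro ⟨B, hB, hpB⟩
      rcases mem_union.1 hB with h | h
      · exact hAQ ((hC1.2.1 p).2 ⟨B, h, hpB⟩)
      · exact (mem_sdiff.1 ((hC2.2.1 p).2 ⟨B, h, hpB⟩)).1
  · intro B hB B' hB' hBB a ha b hb
    rcases mem_union.1 hB with h | h
    · rcases mem_union.1 hB' with h' | h'
      · exact hC1.2.2 B h B' h' hBB a ha b hb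
      · obtain ⟨h3, h4, _⟩ := hcross B h B' h' a ha b hb
        exact ⟨h3, h4⟩
    · rcases mem_union.1 hB' with h' | h'
      · obtain ⟨h3, _, h4⟩ := hcross B' h' B h b hb a ha
        exact ⟨fun e => h3 e.symm, h4⟩
      · exact hC2.2.2 B h B' h' hBB a ha b hb

end Pool.Agent.Helper50.BL
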