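import Pool.Agent.Helper50.BL.Stmts
import Pool.Agent.Helper50.BL.Base

/-! # Kotecky-Preiss bound for connected sets -/

namespace Pool.Agent.Helper50.BL

open Finset
open scoped Classical

/-- union bound for sums of nonnegative functions -/
theorem kp_ub {α β : Type} (A : Finset α) (B : Finset β) (A' : β → Finset α) (f : α → ℝ)
    (hf : ∀ a, 0 ≤ f a) (h : ∀ a ∈ A, ∃ b ∈ B, a ∈ A' b) :
    ∑ a ∈ A, f a ≤ ∑ b ∈ B, ∑ a ∈ A' b, f a := by
  have h1 : ∑ a ∈ A, f a ≤ ∑ a ∈ A, ∑ b ∈ B, (if a ∈ A' b then f a else 0) := by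
    refine sum_le_sum fun a ha => ?_
    obtain ⟨b, hb, hab⟩ := h a ha
    have h2 : (if a ∈ A' b then f a else 0) ≤ ∑ b ∈ B, (if a ∈ A' b then f a else 0) :=
      single_le_sum (f := fun b => if a ∈ A' b then f a else 0)
        (fun b _ => by
          show 0 ≤ (if a ∈ A' b then f a else 0)
          split_ifs
          · exact hf a
          · exact le_rfl) hb
    rwa [if_pos hab] at h2
  refine h1.trans ?_
  rw [sum_comm]
  refine sum_le_sum fun b _ => ?_
  rw [← sum_filter]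
  refine sum_le_sum_of_subset_of_nonneg ?_ fun a _ _ => hf a
  intro a ha
  exact (mem_filter.1 ha).2

theorem kp_prod {α : Type} {R : α → α → Prop} {Q : Finset α} {C : Finset (Finset α)}
    (h : IsComp R Q C) (f : α → ℝ) :
    ∏ p ∈ Q, f p = ∏ A ∈ C, ∏ p ∈ A, f p := by
  have h1 : Q = C.biUnion id := by
    ext p
    rw [h.2.1 p]
    simp
  rw [h1, Finset.prod_biUnion]
  · rfl
  · intro A hA A' hA' hne
    rw [Function.onFun, Finset.disjoint_left]
    intro a ha hb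
    exact (h.2.2 A hA A' hA' hne a ha a hb).1 rfl

theorem st_KP (hC : ST_COMP) : ST_KP := by
  intro α R hs w s hw P
  induction' hn : #P using Nat.strong_induction_on with n ih generalizing P
  intro hP p hp
  set P' := P.erase p with hP'
  set Fam := P'.powerset.filter (fun A => Conn R A ∧ ∃ q ∈ A, R p q) with hFam
  choose C hC using hC α R hs
  have hwp : ∀ A : Finset α, 0 ≤ ∏ q ∈ A, w q := fun A => prod_nonneg fun q _ => hw q
  set D := P.powerset.filter (fun Q => p ∈ Q ∧ Conn R Q) with hD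
  have e1 : ∑ Q ∈ D, ∏ q ∈ Q, w q = w p * ∑ Q ∈ D, ∏ A ∈ C (Q.erase p), ∏ q ∈ A, w q := by
    rw [mul_sum]
    refine sum_congr rfl fun Q hQ => ?_
    have hpQ : p ∈ Q := (mem_filter.1 hQ).2.1
    rw [← kp_prod (hC (Q.erase p)) w, mul_prod_erase Q w hpQ]
  have hrec : ∀ Q ∈ D, insert p ((C (Q.erase p)).biUnion id) = Q := by
    intro Q hQ
    have hpQ : p ∈ Q := (mem_filter.1 hQ).2.1
    have h1 : (C (Q.erase p)).biUnion id = Q.erase p := by
      ext q
      rw [(hC (Q.erase p)).2.1 q]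
      simp
    rw [h1, insert_erase hpQ]
  have hinj : Set.InjOn (fun Q : Finset α => C (Q.erase p)) (D : Set (Finset α)) := by
    intro Q hQ Q' hQ' h
    have h1 := hrec Q (by exact_mod_cast hQ)
    have h2 := hrec Q' (by exact_mod_cast hQ')
    simp only at h
    rw [h] at h1
    exact h1.symm.trans h2
  have e2 : ∑ Q ∈ D, ∏ A ∈ C (Q.erase p), ∏ q ∈ A, w q
      ≤ ∑ T ∈ Fam.powerset, ∏ A ∈ T, ∏ q ∈ A, w q := by
    rw [← sum_image (f := fun T : Finset (Finset α) => ∏ A ∈ T, ∏ q ∈ A, w q) hinj]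
    refine sum_le_sum_of_subset_of_nonneg ?_ fun T _ _ => prod_nonneg fun A _ => hwp A
    intro T hT
    obtain ⟨Q, hQ, rfl⟩ := mem_image.1 hT
    rw [mem_powerset]
    intro A hA
    have hpQ : p ∈ Q := (mem_filter.1 hQ).2.1
    have hQc : Conn R Q := (mem_filter.1 hQ).2.2
    have hQP : Q ⊆ P := mem_powerset.1 (mem_filter.1 hQ).1
    have hcomp := hC (Q.erase p)
    have hAQ : A ⊆ Q.erase p := hcomp.subset hA
    rw [hFam, mem_filter, mem_powerset]
    refine ⟨hAQ.trans (erase_subset_erase p hQP), hcomp.1 A hA, ?_⟩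
    have hpA : p ∉ A := fun h => (mem_erase.1 (hAQ h)).1 rfl
    obtain ⟨a, ha, b, hb, hbA, hr⟩ := hQc.2 A (hAQ.trans (erase_subset p Q)) (hcomp.1 A hA).1
      (fun h => hpA (h ▸ hpQ))
    have hbp : b = p := by
      by_contra hbp
      have hb' : b ∈ Q.erase p := mem_erase.2 ⟨hbp, hb⟩
      obtain ⟨A', hA', hbA'⟩ := (hcomp.2.1 b).1 hb'
      have hne : A ≠ A' := fun h => hbA (h ▸ hbA')
      exact (hcomp.2.2 A hA A' hA' hne a ha b hbA').2 hr
    exact ⟨a, ha, hs _ _ (hbp ▸ hr)⟩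
  have e3 : ∑ T ∈ Fam.powerset, ∏ A ∈ T, ∏ q ∈ A, w q = ∏ A ∈ Fam, (1 + ∏ q ∈ A, w q) := by
    rw [prod_one_add]
  have e4 : ∏ A ∈ Fam, (1 + ∏ q ∈ A, w q) ≤ Real.exp (∑ A ∈ Fam, ∏ q ∈ A, w q) := by
    rw [Real.exp_sum]
    refine prod_le_prod (fun A _ => by have := hwp A; linarith) fun A _ => ?_
    have := Real.add_one_le_exp (∏ q ∈ A, w q)
    linarith
  have e5 : ∑ A ∈ Fam, ∏ q ∈ A, w q ≤ s p := by
    have h1 : ∑ A ∈ Fam, ∏ q ∈ A, w q ≤ ∑ q ∈ P'.filter (fun q => R p q),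
        ∑ A ∈ P'.powerset.filter (fun Q => q ∈ Q ∧ Conn R Q), ∏ q ∈ A, w q := by
      refine kp_ub Fam _ _ _ hwp ?_
      intro A hA
      rw [hFam, mem_filter, mem_powerset] at hA
      obtain ⟨hAP, hAc, q, hq, hr⟩ := hA
      exact ⟨q, mem_filter.2 ⟨hAP hq, hr⟩, mem_filter.2 ⟨mem_powerset.2 hAP, hq, hAc⟩⟩
    refine h1.trans ?_
    have hlt : #P' < n := by
      rw [hP', card_erase_of_mem hp, hn]
      have := card_pos.2 ⟨p, hp⟩
      omega
    have hsub : P' ⊆ P := erase_subset p P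
    have h2 : ∑ q ∈ P'.filter (fun q => R p q),
        ∑ A ∈ P'.powerset.filter (fun Q => q ∈ Q ∧ Conn R Q), ∏ q ∈ A, w q
        ≤ ∑ q ∈ P'.filter (fun q => R p q), w q * Real.exp (s q) := by
      refine sum_le_sum fun q hq => ?_
      refine ih _ hlt P' rfl ?_ q (mem_filter.1 hq).1
      intro a ha
      refine le_trans ?_ (hP a (hsub ha))
      exact sum_le_sum_of_subset_of_nonneg (filter_subset_filter _ hsub)
        fun q _ _ => mul_nonneg (hw q) (Real.exp_nonneg _)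
    refine h2.trans (le_trans ?_ (hP p hp))
    exact sum_le_sum_of_subset_of_nonneg (filter_subset_filter _ hsub)
      fun q _ _ => mul_nonneg (hw q) (Real.exp_nonneg _)
  rw [e1]
  refine mul_le_mul_of_nonneg_left ?_ (hw p)
  refine e2.trans ?_
  rw [e3]
  exact e4.trans (Real.exp_le_exp.2 e5)

end Pool.Agent.Helper50.BL
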