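import Pool.Agent.Helper50.BL.Stmts
import Pool.Agent.Helper50.BL.Base

/-! # Kraft inequality for clusters -/

namespace Pool.Agent.Helper50.BL

open Finset
open scoped Classical

/-- union bound for sums of nonnegative functions -/
theorem kpk_ub {α β : Type} (A : Finset α) (B : Finset β) (A' : β → Finset α) (f : α → ℝ)
    (hf : ∀ a, 0 ≤ f a) (h : ∀ a ∈ A, ∃ b ∈ B, a ∈ A' b) :
    ∑ a ∈ A, f a ≤ ∑ b ∈ B, ∑ a ∈ A' b, f a := by
  have h1 : ∑ a ∈ A, f a ≤ ∑ a ∈ A, ∑ b ∈ B, (if a ∈ A' b then f a else 0) := by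
    refine sum_le_sum fun a ha => ?_
    obtain ⟨b, hb, hab⟩ := h a ha
    have h2 : (if a ∈ A' b then f a else 0) ≤ ∑ b ∈ B, (if a ∈ A' b then f a else 0) :=
      single_le_sum (f := fun b => if a ∈ A' b then f a else 0)
        (fun b _ => by
          show 0 ≤ (if a ∈ A' b then f a else 0)
          split_ifs
          · exact hf a
          · exact le_rfl) hb
    rwa [if_pos hab] at h2
  refine h1.trans ?_
  rw [sum_comm]
  refine sum_le_sum fun b _ => ?_
  rw [← sum_filter]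
  refine sum_le_sum_of_subset_of_nonneg ?_ fun a _ _ => hf a
  intro a ha
  exact (mem_filter.1 ha).2

theorem st_KPK (hKP : ST_KP) : ST_KPK := by
  intro V α _ _ sup cost nb N β ζ hnb hsym hN hβ hζ hK hNζ x G
  set reg : α → Finset V := fun p => (sup p).biUnion nb with hreg
  set R : α → α → Prop := fun p q => ¬ Disjoint (reg p) (reg q) with hR
  set w : α → ℝ := fun p => Real.exp (-(cost p)) with hw
  set s : α → ℝ := fun p => β * (#(sup p) : ℝ) with hs
  set P : Finset α := G.biUnion id with hP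
  have hws : ∀ p, w p * Real.exp (s p) = Real.exp (-(cost p) + β * (#(sup p) : ℝ)) := by
    intro p
    rw [hw, hs, Real.exp_add]
  have hN0 : 0 ≤ N := le_trans (Nat.cast_nonneg _) (hN x)
  have hsumR : ∀ (F : Finset α) (y : V),
      ∑ q ∈ F.filter (fun q => y ∈ reg q), w q * Real.exp (s q) ≤ N * ζ := by
    intro F y
    have h1 : ∑ q ∈ F.filter (fun q => y ∈ reg q), w q * Real.exp (s q)
        ≤ ∑ z ∈ nb y, ∑ q ∈ F.filter (fun q => z ∈ sup q), w q * Real.exp (s q) := by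
      refine kpk_ub _ _ _ _ (fun q => by rw [hws]; exact Real.exp_nonneg _) ?_
      intro q hq
      obtain ⟨hqF, hyq⟩ := mem_filter.1 hq
      obtain ⟨z, hz, hyz⟩ := mem_biUnion.1 hyq
      exact ⟨z, hsym z y hyz, mem_filter.2 ⟨hqF, hz⟩⟩
    refine h1.trans ?_
    calc ∑ z ∈ nb y, ∑ q ∈ F.filter (fun q => z ∈ sup q), w q * Real.exp (s q)
        ≤ ∑ _z ∈ nb y, ζ := by
          refine sum_le_sum fun z _ => ?_
          simp only [hws]
          exact hK z F
      _ = (#(nb y) : ℝ) * ζ := by rw [sum_const, nsmul_eq_mul]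
      _ ≤ N * ζ := mul_le_mul_of_nonneg_right (hN y) hζ
  have hsymR : ∀ a b, R a b → R b a := fun a b h h' => h h'.symm
  have hcard : ∀ p, (#(reg p) : ℝ) ≤ (#(sup p) : ℝ) * N := by
    intro p
    calc (#(reg p) : ℝ) ≤ ((∑ z ∈ sup p, #(nb z) : ℕ) : ℝ) := by
          exact_mod_cast card_biUnion_le
      _ = ∑ z ∈ sup p, (#(nb z) : ℝ) := by push_cast; rfl
      _ ≤ ∑ _z ∈ sup p, N := sum_le_sum fun z _ => hN z
      _ = (#(sup p) : ℝ) * N := by rw [sum_const, nsmul_eq_mul]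
  have hKPhyp : ∀ p ∈ P, ∑ q ∈ P.filter (fun q => R p q), w q * Real.exp (s q) ≤ s p := by
    intro p _
    have h1 : ∑ q ∈ P.filter (fun q => R p q), w q * Real.exp (s q)
        ≤ ∑ y ∈ reg p, ∑ q ∈ P.filter (fun q => y ∈ reg q), w q * Real.exp (s q) := by
      refine kpk_ub _ _ _ _ (fun q => by rw [hws]; exact Real.exp_nonneg _) ?_
      intro q hq
      obtain ⟨hqF, hyq⟩ := mem_filter.1 hq
      obtain ⟨y, hy, hy'⟩ := Finset.not_disjoint_iff.1 hyq
      exact ⟨y, hy, mem_filter.2 ⟨hqF, hy'⟩⟩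
    refine h1.trans ?_
    calc ∑ y ∈ reg p, ∑ q ∈ P.filter (fun q => y ∈ reg q), w q * Real.exp (s q)
        ≤ ∑ _y ∈ reg p, N * ζ := sum_le_sum fun y _ => hsumR P y
      _ = (#(reg p) : ℝ) * (N * ζ) := by rw [sum_const, nsmul_eq_mul]
      _ ≤ ((#(sup p) : ℝ) * N) * (N * ζ) :=
          mul_le_mul_of_nonneg_right (hcard p) (mul_nonneg hN0 hζ)
      _ = (N ^ 2 * ζ) * (#(sup p) : ℝ) := by ring
      _ ≤ β * (#(sup p) : ℝ) := mul_le_mul_of_nonneg_right hNζ (Nat.cast_nonneg _)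
  have hKPhyp' : ∀ p ∈ P, ∑ q ∈ @Finset.filter α (fun q => R p q)
      (fun _ => Classical.propDecidable _) P, w q * Real.exp (s q) ≤ s p := by
    intro p hp
    refine le_trans (le_of_eq ?_) (hKPhyp p hp)
    refine sum_congr ?_ fun _ _ => rfl
    ext q
    simp only [mem_filter]
  have hmain := hKP α R hsymR w s (fun a => Real.exp_nonneg _) P hKPhyp'
  have hexp : ∀ Q : Finset α, Real.exp (-(∑ p ∈ Q, cost p)) = ∏ p ∈ Q, w p := by
    intro Q
    rw [← sum_neg_distrib, Real.exp_sum]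
  have h1 : ∑ Q ∈ G.filter (fun Q => Conn R Q ∧ ∃ p ∈ Q, x ∈ reg p),
        Real.exp (-(∑ p ∈ Q, cost p))
      ≤ ∑ p ∈ P.filter (fun p => x ∈ reg p),
        ∑ Q ∈ P.powerset.filter (fun Q => p ∈ Q ∧ Conn R Q),
          Real.exp (-(∑ p ∈ Q, cost p)) := by
    refine kpk_ub _ _ _ _ (fun q => Real.exp_nonneg _) ?_
    intro Q hQ
    obtain ⟨hQG, hQc, p, hp, hxp⟩ := mem_filter.1 hQ
    have hQP : Q ⊆ P := by
      intro q hq
      exact mem_biUnion.2 ⟨Q, hQG, hq⟩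
    exact ⟨p, mem_filter.2 ⟨hQP hp, hxp⟩, mem_filter.2 ⟨mem_powerset.2 hQP, hp, hQc⟩⟩
  refine h1.trans ?_
  refine le_trans (sum_le_sum fun p hp => ?_) (hsumR P x)
  simp only [hexp]
  exact hmain p (mem_filter.1 hp).1

end Pool.Agent.Helper50.BL
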